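import Mathlib
import Pool.Agent.H7.ThetaData

set_option autoImplicit false

namespace Pool.Agent.Results.MP_d7339e_co.Theta333

open SimpleGraph Pool.Agent.H7.ThetaData

/-- a consistent path system: one path for every pair of vertices, closed under subpaths -/
structure Consistent {V : Type} (G : SimpleGraph V) (P : ∀ u v, G.Walk u v) : Prop where
  isPath : ∀ u v, (P u v).IsPath
  symm : ∀ u v, P v u = (P u v).reverse
  sub : ∀ u v x y (q : G.Walk x y), q.IsSubwalk (P u v) → q = P x y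

def Metrizable {V : Type} (G : SimpleGraph V) : Prop :=
  ∀ P, Consistent G P → ∃ w : Sym2 V → ℝ, (∀ e ∈ G.edgeSet, 0 < w e) ∧
    ∀ u v (Q : G.Walk u v), Q.IsPath → ((P u v).edges.map w).sum ≤ (Q.edges.map w).sum

/-- three paths `0 1 2 3`, `0 4 5 3`, `0 6 7 3` -/
def arcs : List (Fin 8 × Fin 8) :=
  [(0, 1), (1, 2), (2, 3), (0, 4), (4, 5), (5, 3), (0, 6), (6, 7), (7, 3)]

def Theta : SimpleGraph (Fin 8) where
  Adj a b := (a, b) ∈ arcs ∨ (b, a) ∈ arcs
  symm := ⟨fun _ _ h => h.symm⟩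
  loopless := ⟨by decide⟩

instance : DecidableRel Theta.Adj := fun _ _ => inferInstanceAs (Decidable (_ ∨ _))

def enum : ℕ → Fin 8 → List (List (Fin 8))
  | 0, u => [[u]]
  | k + 1, u => [u] :: (List.finRange 8).flatMap fun w =>
      if Theta.Adj u w then ((enum k w).filter (u ∉ ·)).map (u :: ·) else []

lemma mem_enum {u v : Fin 8} (p : Theta.Walk u v) (hp : p.IsPath) :
    ∀ k, p.length ≤ k → p.support ∈ enum k u := by
  induction p with
  | nil => intro k _; cases k <;> simp [enum]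
  | @cons a b c h p ih =>
    intro k hk
    rw [Walk.cons_isPath_iff] at hp
    obtain ⟨k, rfl⟩ : ∃ j, k = j + 1 := ⟨k - 1, by simp at hk; omega⟩
    refine List.mem_cons_of_mem _ (List.mem_flatMap.2 ⟨b, List.mem_finRange b, ?_⟩)
    rw [if_pos h]
    exact List.mem_map.2 ⟨_, List.mem_filter.2 ⟨ih hp.1 k (by simpa using hk), by simpa using hp.2⟩, rfl⟩

def pth (i : ℕ) : List (Fin 8) := paths.getD i []

def seg (a : List (Fin 8)) (x y : Fin 8) : List (Fin 8) :=
  ((a.dropWhile (· != x)).reverse.dropWhile (· != y)).reverse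

lemma seg_in (a : List (Fin 8)) (x y : Fin 8) : seg a x y <:+: a :=
  (List.reverse_suffix.1 (by simpa [seg] using List.dropWhile_suffix _)).isInfix.trans
    (List.dropWhile_suffix (l := a) (· != x)).isInfix

def C1 (a b : List (Fin 8)) : Prop :=
  (seg a (b.headD 0) (b.getLastD 0)).head? = some (b.headD 0) ∧
    (seg a (b.headD 0) (b.getLastD 0)).getLast? = some (b.getLastD 0) ∧
    seg a (b.headD 0) (b.getLastD 0) ≠ b

instance (a b : List (Fin 8)) : Decidable (C1 a b) := inferInstanceAs (Decidable (_ ∧ _))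

def wt (c : ℕ) (a b : Fin 8) : ℕ := 1 + c / 8 ^ (a.val + b.val) % 8

def wl (c : ℕ) : List (Fin 8) → ℕ
  | a :: b :: l => wt c a b + wl c (b :: l)
  | _ => 0

def W (c : ℕ) : Sym2 (Fin 8) → ℝ :=
  Sym2.lift ⟨fun a b => wt c a b, fun a b => by simp [wt, add_comm]⟩

lemma wl_eq (c : ℕ) {u v : Fin 8} (p : Theta.Walk u v) :
    (p.edges.map (W c)).sum = wl c p.support := by
  induction p with
  | nil => simp [wl]
  | cons h p ih =>
    rw [Walk.support_cons, Walk.edges_cons, List.map_cons, List.sum_cons, ih, ← p.cons_tail_support]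
    simp [wl, W]

def go : List (List (ℕ × ℕ × ℕ)) → ℕ → ℕ → Bool
  | [], _, ws => ws != 0
  | ps :: r, ch, ws => ps.all fun t => (t.2.1 &&& ch != 0) || go r (ch ||| 2 ^ t.1) (ws &&& t.2.2)

lemma go_sound (sel : ℕ → Prop) : ∀ (L : List (List (ℕ × ℕ × ℕ))) (ch ws : ℕ),
    (∀ ps ∈ L, ∃ t ∈ ps, sel t.1) → (∀ ps ∈ L, ∀ t ∈ ps, sel t.1 → ∀ q, sel q → ¬ t.2.1.testBit q) →
    (∀ q, ch.testBit q → sel q) → go L ch ws = true →
    ∃ j, ws.testBit j ∧ ∀ ps ∈ L, ∃ t ∈ ps, sel t.1 ∧ t.2.2.testBit j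
  | [], _, ws, _, _, _, h => by
    obtain ⟨j, hj⟩ := Nat.exists_testBit_of_ne_zero (show ws ≠ 0 by simpa [go] using h)
    exact ⟨j, hj, by simp⟩
  | ps :: r, ch, ws, h1, h2, h3, h => by
    obtain ⟨t, ht, st⟩ := h1 ps List.mem_cons_self
    have := List.all_eq_true.1 h t ht
    rw [Bool.or_eq_true] at this
    rcases this with h4 | h4
    · obtain ⟨j, hj⟩ := Nat.exists_testBit_of_ne_zero (show t.2.1 &&& ch ≠ 0 by simpa using h4)
      rw [Nat.testBit_and, Bool.and_eq_true] at hj
      exact absurd hj.1 (h2 ps List.mem_cons_self t ht st j (h3 j hj.2))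
    · obtain ⟨j, hj, h5⟩ := go_sound sel r _ _ (fun a ha => h1 a (List.mem_cons_of_mem _ ha))
        (fun a ha => h2 a (List.mem_cons_of_mem _ ha)) (fun q hq => by
          rw [Nat.testBit_or, Bool.or_eq_true, Nat.testBit_two_pow] at hq
          rcases hq with hq | hq
          · exact h3 q hq
          · exact of_decide_eq_true hq ▸ st) h4
      rw [Nat.testBit_and, Bool.and_eq_true] at hj
      refine ⟨j, hj.1, fun a ha => ?_⟩
      rcases List.mem_cons.1 ha with rfl | ha
      · exact ⟨t, ht, st, hj.2⟩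
      · exact h5 a ha

lemma run : go tab 0 (2 ^ 205 - 1) = true := by decide +kernel

lemma t1 : ∀ ps ∈ tab, ∃ u v : Fin 8, ∀ l ∈ enum 7 u, l.getLastD 0 = v →
    ∃ t ∈ ps, t.1 < 96 ∧ pth t.1 = l := by decide +kernel

lemma t2 : ∀ ps ∈ tab, ∀ t ∈ ps, ∀ q < 96, t.2.1.testBit q →
    C1 (pth t.1) (pth q) ∨ C1 (pth t.1).reverse (pth q) ∨ C1 (pth q) (pth t.1) ∨
      C1 (pth q).reverse (pth t.1) := by decide +kernel

lemma t3 : ∀ u v : Fin 8, u < v → ∃ ps ∈ tab,
    (∀ t ∈ ps, (pth t.1).headD 0 = u ∧ (pth t.1).getLastD 0 = v) ∧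
    ∀ l ∈ enum 7 u, l.getLastD 0 = v → ∀ t ∈ ps, ∀ j < 205, t.2.2.testBit j →
      wl (codes.getD j 0) (pth t.1) ≤ wl (codes.getD j 0) l := by decide +kernel

lemma ends {u v : Fin 8} (p : Theta.Walk u v) : p.support.headD 0 = u ∧ p.support.getLastD 0 = v := by
  constructor
  · rw [← p.cons_tail_support]; rfl
  · rw [List.getLastD_eq_getLast?, List.getLast?_eq_some_getLast p.support_ne_nil, p.getLast_support]
    rfl

/-- `Θ_{3,3,3}` is metrizable. -/
theorem result : Metrizable Theta := by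
  intro P hP
  let sup : List (Fin 8) → Prop := fun l => (P (l.headD 0) (l.getLastD 0)).support = l
  have rev : ∀ l, sup l → ∃ u v, (P u v).support = l.reverse := fun l h =>
    ⟨_, _, by rw [hP.symm, Walk.support_reverse, h]⟩
  have nc : ∀ a b, (∃ u v, (P u v).support = a) → sup b → ¬ C1 a b := by
    rintro a b ⟨u, v, rfl⟩ hb ⟨c1, c2, c3⟩
    set s := seg (P u v).support (b.headD 0) (b.getLastD 0)
    have hne : s ≠ [] := fun e => by simp [e] at c1
    have hi : s <:+: (P u v).support := seg_in _ _ _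
    have hc : s.IsChain Theta.Adj := by
      obtain ⟨l1, l2, e⟩ := hi
      have := (P u v).isChain_adj_support
      rw [← e] at this
      exact this.left_of_append.right_of_append
    have := congrArg Walk.support (hP.sub u v _ _ (Walk.ofSupport s hne hc)
      (Walk.isSubwalk_iff_support_isInfix.2 (by rwa [Walk.support_ofSupport])))
    rw [Walk.support_ofSupport, (List.head_eq_iff_head?_eq_some hne).2 c1,
      (List.getLast_eq_iff_getLast?_eq_some hne).2 c2, hb] at this
    exact c3 this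
  have en : ∀ {u v : Fin 8} (Q : Theta.Walk u v), Q.IsPath → Q.support ∈ enum 7 u := fun Q hQ =>
    mem_enum Q hQ 7 (by have := hQ.length_lt; simp at this; omega)
  obtain ⟨j, hj, h⟩ := go_sound (fun i => i < 96 ∧ sup (pth i)) tab 0 _ (fun ps hps => by
      obtain ⟨u, v, h⟩ := t1 ps hps
      obtain ⟨t, ht, h1, h2⟩ := h _ (en _ (hP.isPath u v)) (ends _).2
      refine ⟨t, ht, h1, ?_⟩
      simp only [sup]
      rw [h2, (ends _).1, (ends _).2])
    (fun ps hps t ht st q sq hq => by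
      rcases t2 ps hps t ht q sq.1 hq with c | c | c | c
      · exact nc _ _ ⟨_, _, st.2⟩ sq.2 c
      · exact nc _ _ (rev _ st.2) sq.2 c
      · exact nc _ _ ⟨_, _, sq.2⟩ st.2 c
      · exact nc _ _ (rev _ sq.2) st.2 c) (by simp) run
  rw [Nat.testBit_two_pow_sub_one, decide_eq_true_eq] at hj
  have key : ∀ u v, u < v → ∀ Q : Theta.Walk u v, Q.IsPath →
      ((P u v).edges.map (W (codes.getD j 0))).sum ≤ (Q.edges.map (W (codes.getD j 0))).sum := by
    intro u v huv Q hQ
    obtain ⟨ps, hps, h1, h2⟩ := t3 u v huv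
    obtain ⟨t, ht, st, gt⟩ := h ps hps
    have := st.2
    simp only [sup] at this
    rw [(h1 t ht).1, (h1 t ht).2] at this
    rw [wl_eq, wl_eq, this]
    exact_mod_cast h2 _ (en Q hQ) (ends Q).2 t ht j hj gt
  refine ⟨W (codes.getD j 0), fun e _ => ?_, fun u v Q hQ => ?_⟩
  · induction e using Sym2.ind
    simp only [W, Sym2.lift_mk, wt]
    positivity
  · rcases lt_trichotomy u v with h | rfl | h
    · exact key u v h Q hQ
    · rw [Walk.isPath_iff_nil.1 (hP.isPath u u) |>.eq_nil, Walk.isPath_iff_nil.1 hQ |>.eq_nil]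
    · have := key v u h Q.reverse hQ.reverse
      rwa [hP.symm u v, Walk.edges_reverse, Walk.edges_reverse, List.map_reverse, List.map_reverse,
        List.sum_reverse, List.sum_reverse] at this

end Pool.Agent.Results.MP_d7339e_co.Theta333
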